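import Pool.Agent.H47.BL.Defs
import Pool.Agent.H47.L.K3h58.ZD.Poly
import Pool.Agent.H2.L.R_seed8.H261R2.CM.Defs2

/-!
# Project BL: the height of a pair of integer polynomials with zeros of bounded discrepancy
-/

set_option autoImplicit false

namespace Pool.Agent.H47.BL.Ht

open MeasureTheory Polynomial Filter Topology
open Pool.Agent.H261R2.CM (toC ez ev1 m1 mx1)

noncomputable section

theorem zb_eq (f : ℂ[X]) (x : ℝ) : Pool.Agent.K3h58.ZD.zerosBelow f x = zb f x := by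
  unfold Pool.Agent.K3h58.ZD.zerosBelow zb
  congr

lemma toC_ne {F : ℤ[X]} (hF : F ≠ 0) : toC F ≠ 0 :=
  (Polynomial.map_ne_zero_iff (Int.castRingHom ℂ).injective_int).mpr hF

lemma toC_lc (F : ℤ[X]) : (toC F).leadingCoeff = ((F.leadingCoeff : ℤ) : ℂ) := by
  unfold toC
  rw [leadingCoeff_map_of_injective (Int.castRingHom ℂ).injective_int]
  rfl

lemma toC_eval0 (F : ℤ[X]) : (toC F).eval 0 = ((F.coeff 0 : ℤ) : ℂ) := by
  unfold toC
  rw [← coeff_zero_eq_eval_zero, coeff_map]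
  rfl

lemma one_le_norm_int {n : ℤ} (hn : n ≠ 0) : 1 ≤ ‖(n : ℂ)‖ := by
  rw [Complex.norm_intCast]
  exact_mod_cast Int.one_le_abs hn

lemma abs_sum_eq (s : Multiset ℂ) : (s.map fun w => |Real.log ‖w‖|).sum =
    2 * (s.map fun w => Real.posLog ‖w‖).sum - (s.map fun w => Real.log ‖w‖).sum := by
  induction s using Multiset.induction_on with
  | empty => simp
  | cons a s ih =>
    rw [Multiset.map_cons, Multiset.map_cons, Multiset.map_cons, Multiset.sum_cons,
      Multiset.sum_cons, Multiset.sum_cons, ih]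
    have : |Real.log ‖a‖| = 2 * Real.posLog ‖a‖ - Real.log ‖a‖ := by
      rw [Real.posLog]
      rcases le_total 0 (Real.log ‖a‖) with h | h
      · rw [max_eq_right h, abs_of_nonneg h]; ring
      · rw [max_eq_left h, abs_of_nonpos h]; ring
    rw [this]
    ring

lemma log_prod_eq (s : Multiset ℂ) (hs : ∀ w ∈ s, w ≠ 0) :
    Real.log ‖(s.map fun w => 0 - w).prod‖ = (s.map fun w => Real.log ‖w‖).sum ∧
      (s.map fun w => 0 - w).prod ≠ 0 := by
  induction s using Multiset.induction_on with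
  | empty => simp
  | cons a s ih =>
    obtain ⟨h1, h2⟩ := ih fun w hw => hs w (Multiset.mem_cons_of_mem hw)
    have h3 := hs a (Multiset.mem_cons_self _ _)
    have h4 : (0 : ℂ) - a ≠ 0 := by rw [zero_sub]; exact neg_ne_zero.mpr h3
    rw [Multiset.map_cons, Multiset.map_cons, Multiset.prod_cons, Multiset.sum_cons, norm_mul,
      Real.log_mul (norm_ne_zero_iff.mpr h4) (norm_ne_zero_iff.mpr h2), h1]
    refine ⟨?_, mul_ne_zero h4 h2⟩
    rw [zero_sub, norm_neg]

lemma int_abs {F : ℤ[X]} (hF : F.coeff 0 ≠ 0) :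
    ((toC F).roots.map fun w => |Real.log ‖w‖|).sum ≤ 2 * (toC F).logMahlerMeasure ∧
      0 ≤ (toC F).logMahlerMeasure := by
  have hF0 : F ≠ 0 := by
    rintro rfl
    simp at hF
  have hC0 := toC_ne hF0
  have hlc : 0 ≤ Real.log ‖(toC F).leadingCoeff‖ := by
    rw [toC_lc]
    exact Real.log_nonneg (one_le_norm_int (leadingCoeff_ne_zero.mpr hF0))
  have h0 : 0 ≤ Real.log ‖(toC F).eval 0‖ := by
    rw [toC_eval0]
    exact Real.log_nonneg (one_le_norm_int hF)
  have he0 : (toC F).eval 0 ≠ 0 := by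
    rw [toC_eval0]
    exact_mod_cast hF
  have hroot : ∀ w ∈ (toC F).roots, w ≠ 0 := by
    rintro w hw rfl
    exact he0 (isRoot_of_mem_roots hw)
  obtain ⟨h1, h2⟩ := log_prod_eq (toC F).roots hroot
  have h3 : Real.log ‖(toC F).eval 0‖ = Real.log ‖(toC F).leadingCoeff‖ +
      ((toC F).roots.map fun w => Real.log ‖w‖).sum := by
    have h4 := (IsAlgClosed.splits (toC F)).eq_prod_roots
    have h5 : (toC F).eval 0 = (toC F).leadingCoeff * ((toC F).roots.map fun w => 0 - w).prod := by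
      conv_lhs => rw [h4]
      rw [eval_mul, eval_C, eval_multiset_prod, Multiset.map_map]
      congr 2
      refine Multiset.map_congr rfl fun w _ => ?_
      simp
    rw [h5, norm_mul, Real.log_mul (norm_ne_zero_iff.mpr (leadingCoeff_ne_zero.mpr hC0))
      (norm_ne_zero_iff.mpr h2), h1]
  have h6 := logMahlerMeasure_eq_log_leadingCoeff_add_sum_log_roots (toC F)
  have h7 : 0 ≤ ((toC F).roots.map fun w => Real.posLog ‖w‖).sum := by
    refine Multiset.sum_nonneg fun x hx => ?_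
    obtain ⟨w, _, rfl⟩ := Multiset.mem_map.mp hx
    exact Real.posLog_nonneg
  rw [abs_sum_eq]
  have h8 : ((toC F).roots.map fun w => Real.posLog ‖w‖).sum =
      (toC F).logMahlerMeasure - Real.log ‖(toC F).leadingCoeff‖ := by
    rw [h6]
    ring
  rw [h8] at h7 ⊢
  constructor <;> linarith

lemma zb_mul_X_pow (k : ℕ) (g : ℂ[X]) (hg : g ≠ 0) (x : ℝ) : zb (X ^ k * g) x = zb g x := by
  unfold zb
  rw [roots_mul (mul_ne_zero (pow_ne_zero _ X_ne_zero) hg), roots_X_pow, Multiset.filter_add,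
    Multiset.card_add]
  have : (Multiset.filter (fun w : ℂ => w ≠ 0 ∧ w.arg < x) (k • ({0} : Multiset ℂ))) = 0 := by
    rw [Multiset.filter_eq_nil]
    intro a ha
    rw [Multiset.mem_nsmul] at ha
    have h1 := ha.2
    rw [Multiset.mem_singleton] at h1
    rw [h1]
    simp
  rw [this]
  simp

lemma mm_X_pow (k : ℕ) : (X ^ k : ℂ[X]).mahlerMeasure = 1 := by
  have h5 : (X : ℂ[X]).mahlerMeasure = 1 := by
    have := mahlerMeasure_X_sub_C 0
    simpa using this
  induction k with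
  | zero => simp
  | succ k ih => rw [pow_succ, mahlerMeasure_mul, ih, h5, one_mul]

theorem mx1_eq (F G : ℤ[X]) : mx1 F G =
    Real.circleAverage (fun z => Real.log (max (‖(toC F).eval z‖ ^ 1) ‖(toC G).eval z‖)) 0 1 := by
  unfold mx1
  rw [Real.circleAverage_def, smul_eq_mul]
  have h := intervalIntegral.integral_comp_mul_left (a := (0:ℝ)) (b := 1)
    (fun θ => Real.log (max (‖(toC F).eval (circleMap 0 1 θ)‖ ^ 1) ‖(toC G).eval (circleMap 0 1 θ)‖))
    (c := 2 * Real.pi) (by positivity)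
  rw [mul_zero, mul_one, smul_eq_mul] at h
  rw [← h]
  refine intervalIntegral.integral_congr fun t _ => ?_
  have e : circleMap 0 1 (2 * Real.pi * t) = ez t := by
    unfold circleMap ez
    push_cast
    rw [zero_add, one_mul]
    congr 1
    ring
  show Real.log (max _ _) = Real.log (max _ _)
  unfold ev1
  rw [e, pow_one]

/-- strip the factor `X ^ k` -/
theorem strip (F : ℤ[X]) (hF : F ≠ 0) : ∃ (k : ℕ) (F1 : ℤ[X]), F = X ^ k * F1 ∧ F1.coeff 0 ≠ 0 ∧
    m1 F = m1 F1 ∧ (∀ x, zb (toC F) x = zb (toC F1) x) ∧ ∀ t, ‖ev1 F t‖ = ‖ev1 F1 t‖ := by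
  obtain ⟨g1, hg1, hg2⟩ := exists_eq_pow_rootMultiplicity_mul_and_not_dvd F hF 0
  rw [C_0, sub_zero] at hg1 hg2
  set k := rootMultiplicity 0 F
  have hg10 : g1 ≠ 0 := by
    rintro rfl
    exact hg2 (dvd_zero _)
  have hgc : g1.coeff 0 ≠ 0 := fun h => hg2 (X_dvd_iff.mpr h)
  have htoC : toC F = X ^ k * toC g1 := by
    conv_lhs => rw [hg1]
    unfold toC
    rw [Polynomial.map_mul, Polynomial.map_pow, Polynomial.map_X]
  refine ⟨k, g1, hg1, hgc, ?_, ?_, ?_⟩
  · unfold m1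
    rw [htoC, mahlerMeasure_mul, mm_X_pow, one_mul]
  · intro x
    rw [htoC, zb_mul_X_pow _ _ (toC_ne hg10)]
  · intro t
    unfold ev1
    rw [htoC, eval_mul, eval_pow, eval_X, norm_mul, norm_pow]
    have : ‖ez t‖ = 1 := by
      unfold ez
      rw [show 2 * (Real.pi : ℂ) * Complex.I * (t : ℂ) = ((2 * Real.pi * t : ℝ) : ℂ) * Complex.I by
        push_cast; ring]
      exact Complex.norm_exp_ofReal_mul_I _
    rw [this, one_pow, one_mul]

/-- **the height of a pair** -/
theorem height_le (F G : ℤ[X]) (hF : F ≠ 0) (hG : G ≠ 0) (D : ℝ)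
    (hD : ∀ x, |(zb (toC F) x : ℝ) - zb (toC G) x| ≤ D) :
    mx1 F G ≤ 5 * Real.log (m1 F) + 5 * Real.log (m1 G) + 12 * (D + 1) := by
  obtain ⟨k, F1, -, hF1, mF, zF, eF⟩ := strip F hF
  obtain ⟨l, G1, -, hG1, mG, zG, eG⟩ := strip G hG
  have h1 : mx1 F G = mx1 F1 G1 := by
    unfold mx1
    simp_rw [eF, eG]
  have hD0 : 0 ≤ D := (abs_nonneg _).trans (hD 0)
  have ef : (toC F1).eval 0 ≠ 0 := by
    rw [toC_eval0]
    exact_mod_cast hF1
  have eg : (toC G1).eval 0 ≠ 0 := by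
    rw [toC_eval0]
    exact_mod_cast hG1
  have h2 := Pool.Agent.K3h58.ZD.pair_est (toC F1) (toC G1) ef eg 1 (D := D + 1) (by linarith) (by
    intro x
    rw [zb_eq, zb_eq, ← zF, ← zG, Nat.cast_one, one_mul]
    exact (hD x).trans (by linarith))
  rw [← mx1_eq, ← h1] at h2
  obtain ⟨a1, a2⟩ := int_abs hF1
  obtain ⟨b1, b2⟩ := int_abs hG1
  have e1 : (toC F1).logMahlerMeasure = Real.log (m1 F) := by
    rw [mF, logMahlerMeasure_eq_log_MahlerMeasure]
    rfl
  have e2 : (toC G1).logMahlerMeasure = Real.log (m1 G) := by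
    rw [mG, logMahlerMeasure_eq_log_MahlerMeasure]
    rfl
  rw [e1] at a1 a2
  rw [e2] at b1 b2
  rw [e1, e2, Nat.cast_one, one_mul, one_mul] at h2
  have h4 : max (Real.log (m1 F)) (Real.log (m1 G)) ≤ Real.log (m1 F) + Real.log (m1 G) :=
    max_le (by linarith) (by linarith)
  linarith

end

end Pool.Agent.H47.BL.Ht
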