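import Pool.Agent.H47.BL.Defs

set_option autoImplicit false

namespace Pool.Agent.H47.BL.Rk

open Matrix

theorem factor {n r : ℕ} (E : Matrix (Fin n) (Fin n) ℝ) (h : E.rank ≤ r) :
    ∃ (A : Matrix (Fin n) (Fin r) ℝ) (B : Matrix (Fin r) (Fin n) ℝ), E = A * B := by
  obtain ⟨t, ht⟩ := Nat.exists_eq_add_of_le h
  set ρ := E.rank with hρ
  subst ht
  set R := LinearMap.range E.mulVecLin with hR
  have hfin : Module.finrank ℝ R = ρ := rfl
  let b : Module.Basis (Fin ρ) ℝ R := Module.finBasisOfFinrankEq ℝ R hfin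
  have hcol : ∀ j, E.mulVecLin (Pi.single j 1) ∈ R := fun j => ⟨_, rfl⟩
  refine ⟨Matrix.of fun i k => Fin.addCases (fun k : Fin ρ => (b k : Fin n → ℝ) i) (fun _ => 0) k,
    Matrix.of fun k j => Fin.addCases (fun k : Fin ρ => b.repr ⟨_, hcol j⟩ k) (fun _ => 0) k, ?_⟩
  ext i j
  rw [Matrix.mul_apply, Fin.sum_univ_add]
  simp only [Matrix.of_apply, Fin.addCases_left, Fin.addCases_right, mul_zero,
    Finset.sum_const_zero, add_zero]
  have h1 := congrArg (fun x : R => (x : Fin n → ℝ) i) (b.sum_repr ⟨_, hcol j⟩)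
  simp only [Submodule.coe_sum, Submodule.coe_smul, Finset.sum_apply, Pi.smul_apply,
    smul_eq_mul] at h1
  have h2 : E.mulVecLin (Pi.single j 1) i = E i j := by
    simp [Matrix.mulVecLin_apply]
  rw [← h2]
  show E.mulVecLin (Pi.single j 1) i = _
  rw [← h1]
  exact Finset.sum_congr rfl fun k _ => mul_comm _ _

theorem fewNeg {n r : ℕ} (V W : Matrix (Fin n) (Fin n) ℝ) (hr : (V - W).rank ≤ r)
    (hW : ∀ x : Fin n → ℝ, 0 ≤ x ⬝ᵥ (W + Wᵀ) *ᵥ x) : FewNeg (2 * r) (V + Vᵀ) := by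
  obtain ⟨A, B, hAB⟩ := factor (V - W) hr
  have h2 : 2 * r = r + r := two_mul r
  rw [h2]
  refine ⟨Matrix.of fun k j => Fin.addCases (fun k : Fin r => A j k) (fun k : Fin r => B k j) k, ?_⟩
  intro x
  have e1 : (V + Vᵀ) = (W + Wᵀ) + (A * B + (A * B)ᵀ) := by
    rw [← hAB, Matrix.transpose_sub]
    abel
  have e2 : x ⬝ᵥ (A * B) *ᵥ x = (Aᵀ *ᵥ x) ⬝ᵥ (B *ᵥ x) := by
    rw [← Matrix.mulVec_mulVec, Matrix.dotProduct_mulVec, ← Matrix.mulVec_transpose]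
  have e3 : x ⬝ᵥ (A * B)ᵀ *ᵥ x = (Aᵀ *ᵥ x) ⬝ᵥ (B *ᵥ x) := by
    rw [← e2, Matrix.mulVec_transpose, dotProduct_comm, ← Matrix.dotProduct_mulVec]
  set U : Matrix (Fin (r + r)) (Fin n) ℝ :=
    Matrix.of fun k j => Fin.addCases (fun k : Fin r => A j k) (fun k : Fin r => B k j) k with hU
  have e4 : (U *ᵥ x) ⬝ᵥ (U *ᵥ x) = (Aᵀ *ᵥ x) ⬝ᵥ (Aᵀ *ᵥ x) + (B *ᵥ x) ⬝ᵥ (B *ᵥ x) := by
    have b1 : ∀ (k : Fin r) (j : Fin n), U (Fin.castAdd r k) j = A j k := by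
      intro k j
      show (Fin.addCases (fun k : Fin r => A j k) (fun k : Fin r => B k j) (Fin.castAdd r k) : ℝ) = _
      rw [Fin.addCases_left]
    have b2 : ∀ (k : Fin r) (j : Fin n), U (Fin.natAdd r k) j = B k j := by
      intro k j
      show (Fin.addCases (fun k : Fin r => A j k) (fun k : Fin r => B k j) (Fin.natAdd r k) : ℝ) = _
      rw [Fin.addCases_right]
    have a1 : ∀ k : Fin r, (U *ᵥ x) (Fin.castAdd r k) = (Aᵀ *ᵥ x) k := by
      intro k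
      show ∑ j, U (Fin.castAdd r k) j * x j = ∑ j, A j k * x j
      simp_rw [b1]
    have a2 : ∀ k : Fin r, (U *ᵥ x) (Fin.natAdd r k) = (B *ᵥ x) k := by
      intro k
      show ∑ j, U (Fin.natAdd r k) j * x j = ∑ j, B k j * x j
      simp_rw [b2]
    simp only [dotProduct, Fin.sum_univ_add, a1, a2]
  rw [e1, Matrix.add_mulVec (W + Wᵀ), Matrix.add_mulVec (A * B), dotProduct_add, dotProduct_add, e2,
    e3, e4]
  have h3 := hW x
  have h4 : 0 ≤ ((Aᵀ *ᵥ x) + (B *ᵥ x)) ⬝ᵥ ((Aᵀ *ᵥ x) + (B *ᵥ x)) := by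
    unfold dotProduct
    exact Finset.sum_nonneg fun i _ => mul_self_nonneg _
  rw [add_dotProduct, dotProduct_add, dotProduct_add, dotProduct_comm (B *ᵥ x) (Aᵀ *ᵥ x)] at h4
  linarith

end Pool.Agent.H47.BL.Rk
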