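import Pool.Agent.H47.BL.Stm
import Pool.Agent.H47.BL.Ht
import Pool.Agent.H47.BL.Rk
import Pool.Agent.H2.L.R_seed8.TH845.KN.B2

/-!
# Project BL: assembly
-/

set_option autoImplicit false

namespace Pool.Agent.H47.BL.Asm

open MeasureTheory Polynomial Filter Topology Matrix
open Pool.Agent.H261R2.CM (toC ez ev1 m1 mx1 LL LL_mono)
open Pool.Agent.TH845.KN (BC LL_mul nat_mem_LL)
open Pool.Agent.H47.BL.Ht (toC_ne toC_lc height_le)

noncomputable section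

/-- splitting off the greatest common divisor -/
theorem split (F G : ℤ[X]) (hF : F ≠ 0) (hG : G ≠ 0) : ∃ D A B : ℤ[X], F = D * A ∧ G = D * B ∧
    D ≠ 0 ∧ A ≠ 0 ∧ B ≠ 0 ∧ IsRelPrime A B ∧ m1 F = m1 D * m1 A ∧
    mx1 F G = Real.log (m1 D) + mx1 A B := by
  obtain ⟨a, b, d, hab, ha, hb⟩ := UniqueFactorizationMonoid.exists_reduced_factors F hF G
  have hd0 : d ≠ 0 := by
    rintro rfl
    exact hF (by rw [← ha, zero_mul])
  have ha0 : a ≠ 0 := by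
    rintro rfl
    exact hF (by rw [← ha, mul_zero])
  have hb0 : b ≠ 0 := by
    rintro rfl
    exact hG (by rw [← hb, mul_zero])
  refine ⟨d, a, b, ha.symm, hb.symm, hd0, ha0, hb0, hab, ?_, ?_⟩
  · rw [← ha]
    unfold m1 toC
    rw [Polynomial.map_mul, mahlerMeasure_mul]
  · rw [← ha, ← hb]
    exact Pool.Agent.H261R2.CM.mx1_mul d a b hd0 ha0

theorem one_le {F : ℤ[X]} (hF : F ≠ 0) : 1 ≤ m1 F := Pool.Agent.H261R2.CM.I1_one_le_m1 hF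

/-- common divisors of measure one -/
theorem mem1 (F G : ℤ[X]) (hF : F ≠ 0) (hG : G ≠ 0) (hgcd : ∀ D : ℤ[X], D ∣ F → D ∣ G → m1 D = 1)
    (Δ : ℝ) (hΔ : ∀ x, |(zb (toC F) x : ℝ) - zb (toC G) x| ≤ Δ) :
    m1 F ∈ LL (5 * Real.log (m1 F) + 5 * Real.log (m1 G) + 12 * (Δ + 1)) := by
  obtain ⟨D, A, B, h1, h2, hD, hA, hB, hAB, h3, h4⟩ := split F G hF hG
  have h5 := hgcd D ⟨A, h1⟩ ⟨B, h2⟩
  have h6 := height_le F G hF hG Δ hΔ
  rw [h4, h5, Real.log_one, zero_add] at h6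
  have h7 := Pool.Agent.W242.IM.m1_mem_LL A B hA hB hAB _ h6
  rw [h5, one_mul] at h3
  rw [← h3] at h7
  exact h7

theorem m1_circle (D : ℤ[X]) (hD : D ≠ 0) (h : ∀ w ∈ (toC D).roots, ‖w‖ = 1) :
    m1 D = |(D.leadingCoeff : ℝ)| := by
  have h2 : ((toC D).roots.map fun a => max 1 ‖a‖) = (toC D).roots.map fun _ => (1 : ℝ) := by
    refine Multiset.map_congr rfl fun z hz => ?_
    rw [h z hz, max_self]
  unfold m1
  rw [mahlerMeasure_eq_leadingCoeff_mul_prod_roots, h2, toC_lc, Complex.norm_intCast]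
  simp

/-- companion with all zeros on the unit circle -/
theorem mem2 (F G : ℤ[X]) (hF : F ≠ 0) (hG : G ≠ 0) (hroot : ∀ w ∈ (toC G).roots, ‖w‖ = 1)
    (Δ : ℝ) (hΔ : ∀ x, |(zb (toC F) x : ℝ) - zb (toC G) x| ≤ Δ) :
    m1 F ∈ LL (6 * Real.log (m1 F) + 5 * Real.log (m1 G) + 12 * (Δ + 1)) := by
  obtain ⟨D, A, B, h1, h2, hD, hA, hB, hAB, h3, h4⟩ := split F G hF hG
  have h6 := height_le F G hF hG Δ hΔ
  have hD1 := one_le hD
  have hA1 := one_le hA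
  have hlD : 0 ≤ Real.log (m1 D) := Real.log_nonneg hD1
  have h7 : mx1 A B ≤ 5 * Real.log (m1 F) + 5 * Real.log (m1 G) + 12 * (Δ + 1) := by
    rw [h4] at h6
    linarith
  have h8 := Pool.Agent.W242.IM.m1_mem_LL A B hA hB hAB _ h7
  have h9 : m1 D = |(D.leadingCoeff : ℝ)| := by
    refine m1_circle D hD fun w hw => hroot w ?_
    rw [mem_roots (toC_ne hD)] at hw
    rw [mem_roots (toC_ne hG), h2]
    unfold toC at hw ⊢
    rw [Polynomial.map_mul]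
    unfold IsRoot at hw ⊢
    rw [eval_mul, hw, zero_mul]
  have h10 : m1 D = ((D.leadingCoeff.natAbs : ℕ) : ℝ) := by
    rw [h9, Nat.cast_natAbs]
    simp
  have h11 : 1 ≤ D.leadingCoeff.natAbs := Int.natAbs_pos.mpr (leadingCoeff_ne_zero.mpr hD)
  have h12 := nat_mem_LL D.leadingCoeff.natAbs h11 (Real.log (m1 D)) (by rw [h10])
  rw [← h10] at h12
  have h13 := LL_mul h12 h8
  rw [← h3] at h13
  refine LL_mono ?_ h13
  have h14 : Real.log (m1 D) ≤ Real.log (m1 F) := by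
    refine Real.log_le_log (by linarith) ?_
    rw [h3]
    nlinarith
  linarith

/-- `F` is a real multiple of `det (X V + Vᵀ)` -/
def IsF {n : ℕ} (V : Matrix (Fin n) (Fin n) ℝ) (F : ℤ[X]) : Prop :=
  ∃ a : ℝ, a ≠ 0 ∧ toC F = C (a : ℂ) * pol V

theorem IsF.zb {n : ℕ} {V : Matrix (Fin n) (Fin n) ℝ} {F : ℤ[X]} (h : IsF V F) (x : ℝ) :
    zb (toC F) x = Pool.Agent.H47.BL.zb (pol V) x := by
  obtain ⟨a, ha, h⟩ := h
  unfold Pool.Agent.H47.BL.zb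
  rw [h, roots_C_mul _ (by exact_mod_cast ha)]

theorem IsF.ne {n : ℕ} {V : Matrix (Fin n) (Fin n) ℝ} {F : ℤ[X]} (h : IsF V F) (hF : F ≠ 0) :
    pol V ≠ 0 := by
  obtain ⟨a, ha, h⟩ := h
  intro h0
  rw [h0, mul_zero] at h
  exact toC_ne hF h

/-- the pair of integer polynomials attached to two matrices: discrepancy -/
theorem disc (hD : S_DISC) {n r k : ℕ} {V W : Matrix (Fin n) (Fin n) ℝ} {F G : ℤ[X]} (hF : F ≠ 0)
    (hG : G ≠ 0) (hVF : IsF V F) (hWG : IsF W G) (hr : (V - W).rank ≤ r) (hk : FewNeg k (V + Vᵀ))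
    (x : ℝ) : |(Pool.Agent.H47.BL.zb (toC F) x : ℝ) - Pool.Agent.H47.BL.zb (toC G) x| ≤
      8 * (r + k) := by
  rw [hVF.zb, hWG.zb]
  exact hD n r k V W (hVF.ne hF) (hWG.ne hG) hr hk x

theorem disc2 (hD : S_DISC) {n r : ℕ} {V W : Matrix (Fin n) (Fin n) ℝ} {F G : ℤ[X]} (hF : F ≠ 0)
    (hG : G ≠ 0) (hVF : IsF V F) (hWG : IsF W G) (hr : (V - W).rank ≤ r)
    (hW : ∀ x : Fin n → ℝ, 0 ≤ x ⬝ᵥ (W + Wᵀ) *ᵥ x)
    (x : ℝ) : |(Pool.Agent.H47.BL.zb (toC F) x : ℝ) - Pool.Agent.H47.BL.zb (toC G) x| ≤ 24 * r := by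
  have h := disc hD hF hG hVF hWG hr (Rk.fewNeg V W hr hW) x
  push_cast at h
  linarith

/-- all zeros on the unit circle -/
theorem circle (hP : S_PSD) {n : ℕ} {W : Matrix (Fin n) (Fin n) ℝ} {G : ℤ[X]} (hWG : IsF W G)
    (hW : ∀ x : Fin n → ℝ, 0 ≤ x ⬝ᵥ (W + Wᵀ) *ᵥ x) (hdet : W.det ≠ 0) :
    ∀ w ∈ (toC G).roots, ‖w‖ = 1 := by
  obtain ⟨a, ha, h⟩ := hWG
  obtain ⟨h1, h2, h3⟩ := hP n W hW hdet
  rw [h, roots_C_mul _ (by exact_mod_cast ha)]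
  exact h2

/-- general companions -/
theorem main1 (hD : S_DISC) {n r k : ℕ} {V W : Matrix (Fin n) (Fin n) ℝ} {F G : ℤ[X]} (hF : F ≠ 0)
    (hG : G ≠ 0) (hVF : IsF V F) (hWG : IsF W G) (hr : (V - W).rank ≤ r) (hk : FewNeg k (V + Vᵀ))
    (hgcd : ∀ D : ℤ[X], D ∣ F → D ∣ G → m1 D = 1) :
    m1 F ∈ LL (5 * Real.log (m1 F) + 5 * Real.log (m1 G) + (96 * (r + k) + 12)) := by
  have h := mem1 F G hF hG hgcd _ (disc hD hF hG hVF hWG hr hk)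
  refine LL_mono (le_of_eq ?_) h
  ring

/-- companions from nonnegative matrices -/
theorem main2 (hD : S_DISC) (hP : S_PSD) {n r : ℕ} {V W : Matrix (Fin n) (Fin n) ℝ} {F G : ℤ[X]}
    (hF : F ≠ 0) (hG : G ≠ 0) (hVF : IsF V F) (hWG : IsF W G) (hr : (V - W).rank ≤ r)
    (hW : ∀ x : Fin n → ℝ, 0 ≤ x ⬝ᵥ (W + Wᵀ) *ᵥ x) (hdet : W.det ≠ 0) :
    m1 G = |(G.leadingCoeff : ℝ)| ∧
    m1 F ∈ LL (6 * Real.log (m1 F) + 5 * Real.log |(G.leadingCoeff : ℝ)| + (288 * r + 12)) := by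
  have h1 := circle hP hWG hW hdet
  have h2 := m1_circle G hG h1
  have h := mem2 F G hF hG h1 _ (disc2 hD hF hG hVF hWG hr hW)
  refine ⟨h2, ?_⟩
  rw [← h2]
  refine LL_mono (le_of_eq ?_) h
  ring

end

end Pool.Agent.H47.BL.Asm
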