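import Mathlib

/-!
# Project BL, second part: every self-reciprocal polynomial times `X + 1` is `det (X V + Vᵀ)`
-/

set_option autoImplicit false

namespace Pool.Agent.H47.BL

open Matrix Polynomial

/-- `det (X V + Vᵀ)` for an integer matrix -/
noncomputable def formZ {n : ℕ} (V : Matrix (Fin n) (Fin n) ℤ) : ℤ[X] :=
  (Matrix.of fun i j => C (V i j) * X + C (V j i)).det

/-- REALIZE. Write `(X + 1) f = ∑_{j ≤ g} e_j (X^(g-j) + X^(g+1+j))`, `e_j = coeff (g+j) + coeff (g+j+1)`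
(symmetric polynomial of odd degree `2g+1`). Let `N` be the lower shift of size `g` (`N i j = 1` iff
`i = j + 1`), `k_j = -e_j` (`1 ≤ j ≤ g`), `ε = e_1` the first unit vector, and (blocks `1, g, g`)
`V = [[e_0, 0, kᵀ], [ε, 0, -N], [0, I, 0]]`. Then
`X V + Vᵀ = [[e_0 (X+1), εᵀ, X kᵀ], [X ε, 0, I - X N], [k, X I - Nᵀ, 0]]`, and (over a field, `X ≠ 0`) with
the lower right `2g × 2g` block `D`: `det D = (-1)^g det (I - X N) det (X I - Nᵀ) = (-1)^g X^g`,
`D⁻¹ = [[0, (X - Nᵀ)⁻¹], [(I - X N)⁻¹, 0]]`, and the Schur complement is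
`e_0 (X+1) - εᵀ (X - Nᵀ)⁻¹ k - X² kᵀ (I - X N)⁻¹ ε = e_0 (X+1) - ∑_j k_j (X^(-j) + X^(j+1))`. So the
determinant is `(-1)^g (X+1) f`; if `g` is odd replace `V` by `-V` (the size is odd). (One may choose any other
construction.) -/
def S_REALIZE : Prop := ∀ (g : ℕ) (f : ℤ[X]), f.natDegree ≤ 2 * g →
  (∀ j ≤ 2 * g, f.coeff j = f.coeff (2 * g - j)) →
  ∃ V : Matrix (Fin (2 * g + 1)) (Fin (2 * g + 1)) ℤ, formZ V = (X + 1) * f

end Pool.Agent.H47.BL
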