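import Pool.Agent.H47.BL.Asm
import Pool.Agent.H47.BL.Stm2

/-!
# Project BL: exhaustion
-/

set_option autoImplicit false

namespace Pool.Agent.H47.BL.Asm2

open Polynomial Matrix
open Pool.Agent.H261R2.CM (toC m1)

noncomputable section

theorem m1_X_add_one : m1 (X + 1 : ℤ[X]) = 1 := by
  unfold m1 toC
  rw [Polynomial.map_add, Polynomial.map_X, Polynomial.map_one]
  have h := mahlerMeasure_X_sub_C (-1 : ℂ)
  rw [C_neg, C_1, sub_neg_eq_add] at h
  rw [h]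
  simp

theorem m1_mul (A B : ℤ[X]) : m1 (A * B) = m1 A * m1 B := by
  unfold m1 toC
  rw [Polynomial.map_mul, mahlerMeasure_mul]

theorem realize (hR : S_REALIZE) (g : ℕ) (f : ℤ[X]) (hd : f.natDegree ≤ 2 * g)
    (hs : ∀ j ≤ 2 * g, f.coeff j = f.coeff (2 * g - j)) :
    ∃ V : Matrix (Fin (2 * g + 1)) (Fin (2 * g + 1)) ℤ, formZ V = (X + 1) * f ∧
      m1 (formZ V) = m1 f := by
  obtain ⟨V, hV⟩ := hR g f hd hs
  refine ⟨V, hV, ?_⟩
  rw [hV, m1_mul, m1_X_add_one, one_mul]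

theorem form_one (n : ℕ) : formZ (1 : Matrix (Fin n) (Fin n) ℤ) = (X + 1) ^ n := by
  unfold formZ
  have : (Matrix.of fun i j : Fin n => C ((1 : Matrix (Fin n) (Fin n) ℤ) i j) * X +
      C ((1 : Matrix (Fin n) (Fin n) ℤ) j i)) = Matrix.diagonal fun _ => (X + 1 : ℤ[X]) := by
    ext1 i j
    by_cases h : i = j
    · subst h
      simp
    · simp [h, Ne.symm h]
  rw [this, Matrix.det_diagonal]
  simp

theorem lc_form_one (n : ℕ) : ((X + 1 : ℤ[X]) ^ n).leadingCoeff = 1 :=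
  (monic_X_add_C (1 : ℤ)).pow n

end

end Pool.Agent.H47.BL.Asm2
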