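import Mathlib

/-!
# Project BL (MP_7ab245_nt, MP_6d22ea_nt): Mahler measures of `det (X V + Vᵀ)`. Definitions.
-/

set_option autoImplicit false

namespace Pool.Agent.H47.BL

open Matrix Polynomial

noncomputable section

/-- value of the (hermitian) form of `A` at `x` -/
def form {n : ℕ} (A : Matrix (Fin n) (Fin n) ℂ) (x : Fin n → ℂ) : ℝ := (star x ⬝ᵥ A *ᵥ x).re

/-- negative index: the largest dimension of a subspace on which the form is negative definite -/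
def neg {n : ℕ} (A : Matrix (Fin n) (Fin n) ℂ) : ℕ :=
  sSup {k : ℕ | ∃ W : Submodule ℂ (Fin n → ℂ), Module.finrank ℂ W = k ∧
    ∀ x ∈ W, x ≠ 0 → form A x < 0}

/-- the dimension of the kernel -/
def nul {n : ℕ} (A : Matrix (Fin n) (Fin n) ℂ) : ℕ := Module.finrank ℂ (LinearMap.ker A.mulVecLin)

/-- `exp (i θ)` -/
def e (θ : ℝ) : ℂ := Complex.exp (θ * Complex.I)

/-- a real matrix as a complex matrix -/
def cx {n : ℕ} (V : Matrix (Fin n) (Fin n) ℝ) : Matrix (Fin n) (Fin n) ℂ := V.map Complex.ofReal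

/-- the hermitian matrix `exp (i θ / 2) V + exp (- i θ / 2) Vᵀ` -/
def H {n : ℕ} (V : Matrix (Fin n) (Fin n) ℝ) (θ : ℝ) : Matrix (Fin n) (Fin n) ℂ :=
  e (θ / 2) • cx V + e (-(θ / 2)) • cx Vᵀ

/-- `det (X V + Vᵀ)` -/
def pol {n : ℕ} (V : Matrix (Fin n) (Fin n) ℝ) : ℂ[X] :=
  (Matrix.of fun i j => C (V i j : ℂ) * X + C (V j i : ℂ)).det

/-- `w ≠ 0` has an argument in `(α, β)` -/
def sector (α β : ℝ) (w : ℂ) : Prop := w ≠ 0 ∧ ∃ θ : ℝ, α < θ ∧ θ < β ∧ w = ‖w‖ * e θ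

open Classical in
/-- number of the zeros of `pol V`, with multiplicity, in the open sector -/
def Z {n : ℕ} (V : Matrix (Fin n) (Fin n) ℝ) (α β : ℝ) : ℕ :=
  ((pol V).roots.filter (sector α β)).card

open Classical in
/-- number of the nonzero zeros with argument in `(-π, π]` smaller than `x` -/
def zb (f : ℂ[X]) (x : ℝ) : ℕ := (f.roots.filter fun w => w ≠ 0 ∧ w.arg < x).card

/-- kernel of `V + Vᵀ` -/
def Z0 {n : ℕ} (V : Matrix (Fin n) (Fin n) ℝ) : Submodule ℂ (Fin n → ℂ) :=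
  LinearMap.ker (cx (V + Vᵀ)).mulVecLin

/-- the kernel of the form of `V - Vᵀ` on the kernel of `V + Vᵀ` -/
def K0 {n : ℕ} (V : Matrix (Fin n) (Fin n) ℝ) : Submodule ℂ (Fin n → ℂ) where
  carrier := {y | y ∈ Z0 V ∧ ∀ z ∈ Z0 V, star z ⬝ᵥ (cx (V - Vᵀ) *ᵥ y) = 0}
  add_mem' := by
    rintro a b ⟨ha, ha'⟩ ⟨hb, hb'⟩
    refine ⟨add_mem ha hb, fun z hz => ?_⟩
    rw [Matrix.mulVec_add, dotProduct_add, ha' z hz, hb' z hz, add_zero]
  zero_mem' := ⟨zero_mem _, fun z _ => by rw [Matrix.mulVec_zero, dotProduct_zero]⟩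
  smul_mem' := by
    rintro c a ⟨ha, ha'⟩
    refine ⟨Submodule.smul_mem _ c ha, fun z hz => ?_⟩
    rw [Matrix.mulVec_smul, dotProduct_smul, ha' z hz, smul_zero]

/-- the symmetric matrix `S` has at most `κ` negative eigenvalues -/
def FewNeg {n : ℕ} (κ : ℕ) (S : Matrix (Fin n) (Fin n) ℝ) : Prop :=
  ∃ U : Matrix (Fin κ) (Fin n) ℝ, ∀ x : Fin n → ℝ, 0 ≤ x ⬝ᵥ S *ᵥ x + (U *ᵥ x) ⬝ᵥ (U *ᵥ x)

end

end Pool.Agent.H47.BL
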