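import Pool.Agent.H47.BL.Asm
import Pool.Agent.H47.BL.T.NEGADD
import Pool.Agent.H47.BL.T.NEGT
import Pool.Agent.H47.BL.T.NEGRK
import Pool.Agent.H47.BL.T.NEGSC
import Pool.Agent.H47.BL.T.NEGBD
import Pool.Agent.H47.BL.T.MULT
import Pool.Agent.H47.BL.T.LOC
import Pool.Agent.H47.BL.T.ONEA
import Pool.Agent.H47.BL.T.ONEB1
import Pool.Agent.H47.BL.T.ONEB2
import Pool.Agent.H47.BL.T.ONE
import Pool.Agent.H47.BL.T.REFL
import Pool.Agent.H47.BL.T.SW1
import Pool.Agent.H47.BL.T.SW2
import Pool.Agent.H47.BL.T.SW3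
import Pool.Agent.H47.BL.T.TOT
import Pool.Agent.H47.BL.T.CMP
import Pool.Agent.H47.BL.T.DISC
import Pool.Agent.H47.BL.T.PSD

/-!
# Project BL: the proved statements
-/

set_option autoImplicit false

namespace Pool.Agent.H47.BL.Fin

theorem refl : S_REFL := REFL.main NEGADD.main NEGT.main
theorem loc : S_LOC := LOC.main NEGADD.main NEGSC.main MULT.main
theorem one : S_ONE := ONE.main NEGADD.main ONEA.main (ONEB1.main NEGADD.main) ONEB2.main
theorem sw1 : S_SW1 := SW1.main MULT.main loc one refl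
theorem sw2 : S_SW2 := SW2.main sw1 loc refl
theorem sw3 : S_SW3 := SW3.main loc refl
theorem tot : S_TOT := TOT.main sw1 sw2 refl MULT.main
theorem cmp : S_CMP := CMP.main sw1 sw2 sw3 tot refl MULT.main
theorem disc : S_DISC := DISC.main NEGRK.main NEGBD.main cmp
theorem psd : S_PSD := PSD.main

end Pool.Agent.H47.BL.Fin
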