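import Pool.Agent.H47.BL.Defs

/-!
# Project BL (MP_7ab245_nt very famous, MP_6d22ea_nt hard): statements of the stubs with proofs

THEOREM (target). For integer matrices `V`, `W` of the same size with `rank (V - W) ≤ r`, such that
`V + Vᵀ` has at most `κ` negative eigenvalues, the zeros of `det (X V + Vᵀ)` and `det (X W + Wᵀ)`
(for instance Coxeter polynomials, Alexander polynomials) have bounded discrepancy:
`|N_V(x) - N_W(x)| ≤ 8 (r + κ)`. With the library this gives Lehmer's and Boyd's conjectures for these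
polynomials in terms of `r`, `κ` and `M(det (X W + Wᵀ))`; the latter is `|det W|` if `W + Wᵀ ≥ 0`.

Notation: `H V θ = e^{iθ/2} V + e^{-iθ/2} Vᵀ` is hermitian, `det (H V θ) = e^{-inθ/2} pol V (e^{iθ})`,
`neg` = number of negative eigenvalues, `nul` = dimension of the kernel.
-/

set_option autoImplicit false

namespace Pool.Agent.H47.BL

open Matrix Polynomial Filter Topology

/-- NEGADD (Sylvester). Proof: spectral theorem: an orthonormal basis of eigenvectors; `W_-`, `W_+`,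
`W_0` the spans of those with negative, positive, zero eigenvalue. `W_-` is negative definite; if `N` is
negative definite then `N ∩ (W_+ + W_0) = 0`, so `dim N ≤ dim W_-`; hence `neg A = dim W_-`, and the same
for `-A`; `W_0` is the kernel. (The set in the definition of `neg` is bounded by `n` and contains `0`.) -/
def S_NEGADD : Prop := ∀ (n : ℕ) (A : Matrix (Fin n) (Fin n) ℂ), A.IsHermitian →
  neg A + neg (-A) + nul A = n

/-- NEGT. The transposed matrix of a hermitian `A` is its complex conjugate; `x ↦ star x` maps negative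
definite subspaces of `A` to those of `Aᵀ` (conjugate of a subspace: same dimension). -/
def S_NEGT : Prop := ∀ (n : ℕ) (A : Matrix (Fin n) (Fin n) ℂ), A.IsHermitian →
  neg Aᵀ = neg A ∧ nul Aᵀ = nul A

/-- NEGRK. If `N` is negative definite for `A` then `N ∩ ker (A - B)` is negative definite for `B` and
has dimension at least `dim N - rank (A - B)`. -/
def S_NEGRK : Prop := ∀ (n ρ : ℕ) (A B : Matrix (Fin n) (Fin n) ℂ), (A - B).rank ≤ ρ →
  neg A ≤ neg B + ρ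

/-- NEGSC. Let `N` be a negative definite subspace of maximal dimension for `A θ₀`; on the (compact) unit
sphere of `N` the form of `A θ₀` is at most `- c < 0`, and the forms of `A θ` converge uniformly
there. -/
def S_NEGSC : Prop := ∀ (n : ℕ) (A : ℝ → Matrix (Fin n) (Fin n) ℂ) (θ₀ : ℝ), ContinuousAt A θ₀ →
  ∀ᶠ θ in 𝓝 θ₀, neg (A θ₀) ≤ neg (A θ)

/-- NEGBD. For `x = u + i v`, `form (cx S) x = u S u + v S v` (`S` symmetric), and it is nonnegative on the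
kernel of `U` (dimension at least `n - κ`), which meets a negative definite subspace only in `0`. -/
def S_NEGBD : Prop := ∀ (n κ : ℕ) (S : Matrix (Fin n) (Fin n) ℝ), S.IsSymm → FewNeg κ S →
  neg (cx S) ≤ κ

/-- MULT. Put `t₀ = e θ`, `M(X) = X V + Vᵀ = M(t₀) + (X - t₀) V`. The kernel of `H V θ` is the kernel of
`M(t₀)`, of dimension `d`. Let `P` be an invertible matrix the first `d` columns of which are a basis of the
kernel. The first `d` columns of `M(X) P` are `(X - t₀) V p_j`; so `(X - t₀)^d` divides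
`det M(X) * det P`. -/
def S_MULT : Prop := ∀ (n : ℕ) (V : Matrix (Fin n) (Fin n) ℝ) (θ : ℝ), pol V ≠ 0 →
  nul (H V θ) ≤ (pol V).rootMultiplicity (e θ)

/-- LOC. Let `ν(θ) = neg (H V θ)`, `ν⁺(θ) = neg (-H V θ)`, `d(θ) = nul (H V θ)`, so that `ν + ν⁺ + d = n`
(NEGADD), `σ = ν⁺ - ν`. By MULT `d(θ) ≠ 0` only for finitely many `θ` in `[α, β]`
(for which `e θ` is a zero of `pol V`). By NEGSC, near every `θ₀` we have `ν(θ) ≥ ν(θ₀)` and
`ν⁺(θ) ≥ ν⁺(θ₀)`, hence `|σ(θ) - σ(θ₀)| ≤ d(θ₀)`. So the function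
`G(θ) = -σ(θ) + 2 ∑_{α < θ' < θ} d(θ') + d(θ)` satisfies `G(θ) ≤ G(θ₀)` for `θ < θ₀` near `θ₀` and
`G(θ) ≥ G(θ₀)` for `θ > θ₀` near `θ₀` (note that `d(θ) = 0` for `θ ≠ θ₀` near `θ₀`); hence it is
nondecreasing on `[α, β]` (`sup` argument). With `d(α) = d(β) = 0` this is
`σ(β) - σ(α) ≤ 2 ∑_{α<θ'<β} d(θ')`, i.e. `ν(α) - ν(β) ≤ ∑ d(θ')`; the same with `-σ` gives the other
inequality. By MULT `∑ d(θ') ≤ ∑ rootMultiplicity (e θ') ≤ Z V α β` (the `e θ'` are distinct because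
`β - α ≤ 2π`). -/
def S_LOC : Prop := ∀ (n : ℕ) (V : Matrix (Fin n) (Fin n) ℝ), pol V ≠ 0 → ∀ α β : ℝ, α < β →
  β ≤ α + 2 * Real.pi → nul (H V α) = 0 → nul (H V β) = 0 →
  neg (H V α) ≤ neg (H V β) + Z V α β ∧ neg (H V β) ≤ neg (H V α) + Z V α β

/-- ONEA. Let `S = V + Vᵀ`, `J = V - Vᵀ`, `u = X - 1`, `M = X V + Vᵀ = S + u V`, `d = dim Z0`,
`k = dim K0`. For `y ∈ Z0`: `M y = u V y`. For `y ∈ K0`: `J y` is orthogonal to `ker S`, so `J y = S x` for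
some `x` (`S` is hermitian), `V y = J y / 2` and `M (y - (u/2) x) = - (u²/2) V x`. Take a basis `y_j` of
`ℂ^n` with `y_1..y_k` a basis of `K0`, `y_1..y_d` a basis of `Z0`, and the polynomial matrix `Y` with
columns `y_j - (u/2) x_j` (`j ≤ k`), `y_j` (`j > k`). Then `u^(2k + (d-k))` divides `det M * det Y` and `u`
does not divide `det Y` (its value at `X = 1` is invertible). -/
def S_ONEA : Prop := ∀ (n : ℕ) (V : Matrix (Fin n) (Fin n) ℝ), pol V ≠ 0 →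
  Module.finrank ℂ (Z0 V) + Module.finrank ℂ (K0 V) ≤ (pol V).rootMultiplicity 1

/-- ONEB1. The hermitian form `i J` on `Z0` (`J = V - Vᵀ`): there is a subspace `P ≤ Z0` on which it is
positive definite, with `2 dim P + dim K0 = dim Z0`. Proof: a basis `b` of `Z0` (real vectors, or any) gives
the hermitian matrix `G_jk = b_j^* (iJ) b_k` of size `d`; NEGADD for `G`; `nul G = dim K0`, and
`neg G = neg (-G)` because complex conjugation maps `Z0` to itself and changes the sign of the form. -/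
def S_ONEB1 : Prop := ∀ (n : ℕ) (V : Matrix (Fin n) (Fin n) ℝ),
  ∃ P : Submodule ℂ (Fin n → ℂ), P ≤ Z0 V ∧
    2 * Module.finrank ℂ P + Module.finrank ℂ (K0 V) = Module.finrank ℂ (Z0 V) ∧
    ∀ x ∈ P, x ≠ 0 → 0 < form (Complex.I • cx (V - Vᵀ)) x

/-- ONEB2. `H V θ = cos (θ/2) S + sin (θ/2) (i J)`, `S = V + Vᵀ`, `J = V - Vᵀ`. Let `P₁` be positive
definite for `S` of dimension `neg (-S)` and `P ≤ ker S` positive definite for `i J`. For small `δ > 0` the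
form of `H V δ` is positive definite on `P₁ ⊕ P` (for `x ∈ P₁`, `y ∈ P`:
`S(x+y) = S(x) ≥ c |x|²`, `iJ(x+y) ≥ c' |y|² - 2 C |x| |y| - C |x|²`). -/
def S_ONEB2 : Prop := ∀ (n : ℕ) (V : Matrix (Fin n) (Fin n) ℝ) (P : Submodule ℂ (Fin n → ℂ)),
  P ≤ Z0 V → (∀ x ∈ P, x ≠ 0 → 0 < form (Complex.I • cx (V - Vᵀ)) x) →
  ∀ᶠ δ in 𝓝[>] (0 : ℝ), neg (-H V 0) + Module.finrank ℂ P ≤ neg (-H V δ)

/-- ONE (from NEGADD, ONEA, ONEB1, ONEB2). `neg (H V δ) ≤ n - neg (-H V δ) ≤ n - neg (-S) - dim P =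
neg S + d - dim P`, and `2 (d - dim P) = d + dim K0 ≤ rootMultiplicity 1`. -/
def S_ONE : Prop := ∀ (n : ℕ) (V : Matrix (Fin n) (Fin n) ℝ), pol V ≠ 0 →
  ∀ᶠ δ in 𝓝[>] (0 : ℝ), 2 * neg (H V δ) ≤ (pol V).rootMultiplicity 1 + 2 * neg (H V 0)

/-- REFL. `H V (-θ) = (H V θ)ᵀ`, `H V (2π - θ) = -(H V θ)ᵀ`; NEGADD and NEGT. -/
def S_REFL : Prop := ∀ (n : ℕ) (V : Matrix (Fin n) (Fin n) ℝ) (θ : ℝ),
  neg (H V (-θ)) = neg (H V θ) ∧ nul (H V (-θ)) = nul (H V θ) ∧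
  nul (H V (2 * Real.pi - θ)) = nul (H V θ) ∧
  neg (H V (2 * Real.pi - θ)) + neg (H V θ) + nul (H V θ) = n

/-- SW1 (from MULT, LOC, ONE, REFL). Let `0 < a`, `0 < b`, `a + b < 2π`. Choose a small `δ > 0` with
`nul (H V δ) = 0` (by MULT all but finitely many `δ`). LOC on `(-a, -δ)` and `(δ, b)`, ONE, and
`Z(-a, b) ≥ Z(-a, -δ) + Z(δ, b) + rootMultiplicity 1`. -/
def S_SW1 : Prop := ∀ (n : ℕ) (V : Matrix (Fin n) (Fin n) ℝ), pol V ≠ 0 → ∀ a b : ℝ, 0 < a → 0 < b →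
  a + b < 2 * Real.pi → nul (H V a) = 0 → nul (H V b) = 0 →
  neg (H V a) + neg (H V b) ≤ Z V (-a) b + 2 * neg (H V 0)

/-- SW2 (from SW1, LOC, REFL). For `0 < α < β < 2π`: the sectors `(α, β)` and `(β - 2π, α)` are disjoint and
`pol V` has at most `n` zeros; `Z(α, β) ≤ n - Z(-(2π - β), α)`, and SW1 with `a = 2π - β`, `b = α`,
`neg (H V (2π - β)) = n - neg (H V β)`. -/
def S_SW2 : Prop := ∀ (n : ℕ) (V : Matrix (Fin n) (Fin n) ℝ), pol V ≠ 0 → ∀ α β : ℝ, 0 < α → α < β →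
  β < 2 * Real.pi → nul (H V α) = 0 → nul (H V β) = 0 →
  neg (H V β) ≤ neg (H V α) + Z V α β ∧ Z V α β + neg (H V α) ≤ neg (H V β) + 2 * neg (H V 0)

/-- SW3 (from LOC, REFL). For `0 < a`, `0 < b`, `a + b < 2π`: `Z(-a, b) ≤ n - Z(b, 2π - a)` and LOC on
`(b, 2π - a)`: `Z(b, 2π - a) ≥ neg (H V (2π - a)) - neg (H V b) = n - neg (H V a) - neg (H V b)`. -/
def S_SW3 : Prop := ∀ (n : ℕ) (V : Matrix (Fin n) (Fin n) ℝ), pol V ≠ 0 → ∀ a b : ℝ, 0 < a → 0 < b →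
  a + b < 2 * Real.pi → nul (H V a) = 0 → nul (H V b) = 0 →
  Z V (-a) b ≤ neg (H V a) + neg (H V b)

/-- TOT (from SW1, SW2, REFL). The number of nonzero zeros is at least `n - 2 neg (H V 0)`: choose `b` in
`(0, π)` with `nul (H V b) = 0`; `Z(b, 2π - b) + Z(-b, b) ≥ (n - 2 neg (H V b)) + (2 neg (H V b) - 2 neg
(H V 0))`. (`zb f 4` counts all nonzero zeros.) -/
def S_TOT : Prop := ∀ (n : ℕ) (V : Matrix (Fin n) (Fin n) ℝ), pol V ≠ 0 →
  n ≤ zb (pol V) 4 + 2 * neg (H V 0) ∧ zb (pol V) 4 ≤ n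

/-- CMP (from SW1, SW2, SW3, TOT, REFL, MULT). If `|neg (H V θ) - neg (H W θ)| ≤ m` for all `θ` and
`neg (H V 0), neg (H W 0) ≤ κ` then `|N_V(x) - N_W(x)| ≤ 2 m + 2 κ` for all `x`, `N_V(x) = zb (pol V) x`.
For `x ≤ -π` both are `0`; for `x > π` TOT. For `-π < x ≤ π` choose `α > -π` near `-π` and `x' < x` near `x`,
`x' ≠ 0`, with `nul = 0` for both matrices at `α`, `x'` (MULT: finitely many exceptions) and such that
no zero has argument in `(-π, α]` or `[x', x)`; then `N_V(x) = Z V α x'`. If `x' > 0`: SW1 and SW3 with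
`a = -α`, `b = x'`. If `x' < 0`: `Z V α x' = Z V (α + 2π) (x' + 2π)` and SW2, and REFL. -/
def S_CMP : Prop := ∀ (n m κ : ℕ) (V W : Matrix (Fin n) (Fin n) ℝ), pol V ≠ 0 → pol W ≠ 0 →
  (∀ θ, neg (H V θ) ≤ neg (H W θ) + m ∧ neg (H W θ) ≤ neg (H V θ) + m) →
  neg (H V 0) ≤ κ → neg (H W 0) ≤ κ →
  ∀ x : ℝ, zb (pol V) x ≤ zb (pol W) x + (2 * m + 2 * κ) ∧ zb (pol W) x ≤ zb (pol V) x + (2 * m + 2 * κ)

/-- DISC (from NEGRK, NEGBD, CMP): `rank (H V θ - H W θ) ≤ 2 r`, `H V 0 = cx (V + Vᵀ)`. -/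
def S_DISC : Prop := ∀ (n r κ : ℕ) (V W : Matrix (Fin n) (Fin n) ℝ), pol V ≠ 0 → pol W ≠ 0 →
  (V - W).rank ≤ r → FewNeg κ (V + Vᵀ) →
  ∀ x : ℝ, |(zb (pol V) x : ℝ) - zb (pol W) x| ≤ 8 * (r + κ)

/-- PSD. If `W + Wᵀ ≥ 0` and `det W ≠ 0` then all zeros of `pol W` have absolute value `1`. Proof: let
`(w W + Wᵀ) x = 0`, `x ≠ 0`, `v = x^* W x`. Then `w v + conj v = 0`, so `|w| = 1` or `v = 0`. If `v = 0` then
`x^* (W + Wᵀ) x = 0`, so `(W + Wᵀ) x = 0` (semidefinite), `(w - 1) W x = 0`, `w = 1`. Also the leading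
coefficient is `det W` and the degree is `n`; so the Mahler measure is `|det W|`. -/
def S_PSD : Prop := ∀ (n : ℕ) (W : Matrix (Fin n) (Fin n) ℝ), (∀ x : Fin n → ℝ, 0 ≤ x ⬝ᵥ (W + Wᵀ) *ᵥ x) →
  W.det ≠ 0 → pol W ≠ 0 ∧ (∀ w ∈ (pol W).roots, ‖w‖ = 1) ∧ (pol W).mahlerMeasure = |W.det|

end Pool.Agent.H47.BL
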